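import Pool.Agent.H332.HT.Defs

set_option autoImplicit false

/-!
# CLB: all arcs `[t, a₀ + π]` are good (mirror image of helper120's CLA)
-/

namespace Pool.Agent.H332.HTB

open Pool.Agent.H332.HT

/-- sub-arcs of good arcs are good -/
theorem good_mono {K : Set V3} {q : ℝ → V2} {a b a' b' : ℝ} (h : Good K q a b) (ha : a ≤ a')
    (hb : b' ≤ b) : Good K q a' b' := by
  obtain ⟨d, hd⟩ := h
  exact ⟨d, fun t h1 h2 z hz => hd t (ha.trans h1) (h2.trans hb) z hz⟩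

theorem clB (hP : S_P) (hgop : S_gop) (hgpt : S_gpt) (hQ : S_Q) (h3 : S_three) (h8 : S_H8)
    (hc1 : S_ch1) (hc2 : S_ch2) : S_B := by
  intro K hK q hq hnf hnl a₀ hext t₀ hat hta hmid
  by_contra hng
  obtain ⟨e₁, he₁⟩ : ∃ e₁ : ℝ, e₁ = a₀ + Real.pi := ⟨_, rfl⟩
  rw [← he₁] at hng
  have hqe : q e₁ = - q a₀ := by rw [he₁]; exact hq.anti a₀
  obtain ⟨ε₀, hε₀, hg₀⟩ := hgop K hK q hq e₁ e₁ le_rfl (hgpt K hK q hq e₁ (hnf e₁))
  obtain ⟨S, hS⟩ : ∃ S : Set ℝ, S = {t | t₀ ≤ t ∧ t ≤ e₁ ∧ ¬ Good K q t e₁} := ⟨_, rfl⟩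
  have hmem : ∀ t, t ∈ S ↔ t₀ ≤ t ∧ t ≤ e₁ ∧ ¬ Good K q t e₁ := by
    intro t
    rw [hS]
    exact Iff.rfl
  have hne : S.Nonempty := ⟨t₀, (hmem t₀).2 ⟨le_rfl, by linarith, hng⟩⟩
  have hbd : BddAbove S := ⟨e₁, fun t ht => ((hmem t).1 ht).2.1⟩
  obtain ⟨c, hc⟩ : ∃ c, c = sSup S := ⟨_, rfl⟩
  have hb1 : c < e₁ := by
    have h1 : c ≤ e₁ - ε₀ := by
      rw [hc]
      refine csSup_le hne fun t ht => ?_
      obtain ⟨h2, h4, h5⟩ := (hmem t).1 ht
      by_contra hcon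
      rw [not_le] at hcon
      exact h5 (good_mono hg₀ hcon.le (by linarith))
    linarith
  have hb2 : t₀ ≤ c := by
    rw [hc]
    exact le_csSup hbd ((hmem t₀).2 ⟨le_rfl, by linarith, hng⟩)
  have hgs : ∀ s, s ≤ e₁ → c < s → Good K q s e₁ := by
    intro s h1 h2
    by_contra hcon
    have h4 : s ≤ c := by
      rw [hc]
      exact le_csSup hbd ((hmem s).2 ⟨by linarith, h1, hcon⟩)
    linarith
  have hngc : ¬ Good K q c e₁ := by
    intro hg
    obtain ⟨ε, hε, hg2⟩ := hgop K hK q hq c e₁ hb1.le hg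
    have h1 : c ≤ c - ε := by
      conv_lhs => rw [hc]
      refine csSup_le hne fun t ht => ?_
      obtain ⟨h2, h4, h5⟩ := (hmem t).1 ht
      by_contra hcon
      rw [not_le] at hcon
      exact h5 (good_mono hg2 hcon.le (by linarith))
    linarith
  have hca : a₀ < c := by linarith
  have hm1 : (1 / 2 : ℝ) • (q c + q a₀) ∈ IP K :=
    (hc2 K hK q hq a₀ c t₀).2 hat hb2 (by linarith) hmid
  have hm2 : (1 / 2 : ℝ) • (q c - q e₁) ∈ IP K := by
    rw [hqe, sub_neg_eq_add]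
    exact hm1
  by_cases hcase : ∀ a b, a₀ < a → a < b → b < c → Good K q a b
  · -- three good arcs
    obtain ⟨ε, hε, hg⟩ := hgop K hK q hq c c le_rfl (hgpt K hK q hq c (hnf c))
    obtain ⟨s, hs1, hs2, hs3⟩ : ∃ s, a₀ < s ∧ s < c ∧ c - ε < s := by
      obtain ⟨s, h1, h2⟩ := exists_between (max_lt hca (by linarith : c - ε < c))
      exact ⟨s, (le_max_left _ _).trans_lt h1, h2, (le_max_right _ _).trans_lt h1⟩
    obtain ⟨c', hc3, hc4, hc5⟩ : ∃ c', c < c' ∧ c' < c + ε ∧ c' < e₁ := by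
      obtain ⟨c', h1, h2⟩ := exists_between (lt_min (by linarith : c < c + ε) hb1)
      exact ⟨c', h1, h2.trans_le (min_le_left _ _), h2.trans_le (min_le_right _ _)⟩
    obtain ⟨ε', hε', hg'⟩ := hgop K hK q hq c' e₁ hc5.le (hgs c' hc5.le hc3)
    obtain ⟨n, hn1, hn2, hn3⟩ : ∃ n, 0 < n ∧ n < ε' ∧ n < s - a₀ := by
      obtain ⟨n, h1, h2⟩ := exists_between (lt_min hε' (by linarith : 0 < s - a₀))
      exact ⟨n, h1, h2.trans_le (min_le_left _ _), h2.trans_le (min_le_right _ _)⟩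
    refine hnl (h3 K hK q hq (a₀ + n) s c' (by linarith) (by linarith) (by linarith) ?_ ?_ ?_)
    · exact hcase _ s (by linarith) (by linarith) hs2
    · exact good_mono hg (by linarith) (by linarith)
    · exact good_mono hg' (by linarith) (by linarith)
  · -- two bad arcs
    push Not at hcase
    obtain ⟨a, b, haa, hab, hbc, hngab⟩ := hcase
    have hqb : q (b - Real.pi) = - q b := by
      have h1 := hq.anti (b - Real.pi)
      rw [sub_add_cancel] at h1
      rw [h1, neg_neg]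
    have hm3 : (1 / 2 : ℝ) • (q a - q b) ∈ IP K := by
      have h1 := hc1 K hK q hq a₀ (b - Real.pi) a hext (by linarith) (by linarith) (by linarith)
      rw [hqb] at h1
      have h2 : -q b + q a = q a - q b := by rw [neg_add_eq_sub]
      rw [h2] at h1
      exact h1
    obtain ⟨hB1, hB2⟩ := hQ K hK q hq a b c e₁ hab hbc hb1 (by linarith) hm3 hm2 hngab hngc
    have hopen : IsOpen (IP K) := isOpen_interior
    have hcont : Continuous fun n : ℝ => (1 / 2 : ℝ) • (q (c - n) + q (a₀ + n)) := by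
      have hqc := hq.cont
      fun_prop
    have hpre : IsOpen ((fun n : ℝ => (1 / 2 : ℝ) • (q (c - n) + q (a₀ + n))) ⁻¹' IP K) :=
      hopen.preimage hcont
    have h0 : (0 : ℝ) ∈ (fun n : ℝ => (1 / 2 : ℝ) • (q (c - n) + q (a₀ + n))) ⁻¹' IP K := by
      rw [Set.mem_preimage, sub_zero, add_zero]
      exact hm1
    obtain ⟨ε, hε, hball⟩ := Metric.isOpen_iff.1 hpre 0 h0
    obtain ⟨n, hn1, hn2, hn3, hn4⟩ : ∃ n, 0 < n ∧ n < ε ∧ n < c - b ∧ n < a - a₀ := by
      obtain ⟨n, h1, h2⟩ := exists_between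
        (lt_min hε (lt_min (by linarith : 0 < c - b) (by linarith : 0 < a - a₀)))
      exact ⟨n, h1, h2.trans_le (min_le_left _ _),
        h2.trans_le ((min_le_right _ _).trans (min_le_left _ _)),
        h2.trans_le ((min_le_right _ _).trans (min_le_right _ _))⟩
    have hm4 : (1 / 2 : ℝ) • (q (a₀ + n) + q (c - n)) ∈ IP K := by
      have h1 : n ∈ Metric.ball (0 : ℝ) ε := by
        rw [Metric.mem_ball, Real.dist_eq, sub_zero, abs_of_pos hn1]
        exact hn2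
      rw [add_comm (q (a₀ + n))]
      exact hball h1
    have hqb1 : q (c - n - Real.pi) = - q (c - n) := by
      have h1 := hq.anti (c - n - Real.pi)
      rw [sub_add_cancel] at h1
      rw [h1, neg_neg]
    have hm5 : (1 / 2 : ℝ) • (q (a₀ + n) - q (c - n)) ∈ IP K := by
      have h1 := hc1 K hK q hq a₀ (c - n - Real.pi) (a₀ + n) hext (by linarith) (by linarith)
        (by linarith)
      rw [hqb1] at h1
      have h2 : -q (c - n) + q (a₀ + n) = q (a₀ + n) - q (c - n) := by rw [neg_add_eq_sub]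
      rw [h2] at h1
      exact h1
    have hlow : ∀ z : ℝ, (∃ t, a ≤ t ∧ t ≤ b ∧ ((q t, z) : V3) ∈ K) →
        ∃ y : V2, y ∉ IP K ∧ 0 < det (q (a₀ + n)) y ∧ 0 < det y (q (c - n)) ∧
          ((y, z) : V3) ∈ K := by
      rintro z ⟨t, h1, h2, h4⟩
      exact ⟨q t, hq.nint t, hq.pos _ _ (by linarith) (by linarith),
        hq.pos _ _ (by linarith) (by linarith), h4⟩
    have hupp : ∀ z : ℝ, (∃ t, c ≤ t ∧ t ≤ e₁ ∧ ((q t, z) : V3) ∈ K) →
        ∃ y : V2, y ∉ IP K ∧ 0 < det (q (a₀ + n)) y ∧ 0 < det (q (c - n)) y ∧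
          ((y, z) : V3) ∈ K := by
      rintro z ⟨t, h1, h2, h4⟩
      exact ⟨q t, hq.nint t, hq.pos _ _ (by linarith) (by linarith),
        hq.pos _ _ (by linarith) (by linarith), h4⟩
    exact hnl (h8 K hK (q (a₀ + n)) (q (c - n)) (hq.mem _) (hq.mem _) (hq.nint _) (hq.nint _)
      (hq.pos _ _ (by linarith) (by linarith)) hm5 hm4 (hlow 1 hB1.1) (hlow (-1) hB1.2)
      (hupp 1 hB2.1) (hupp (-1) hB2.2))

end Pool.Agent.H332.HTB
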