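import Mathlib

/-!
Project HT (helper332): every half-turn symmetric convex body K of R^3 can be illuminated by eight
directions (page MP_eba1ef_gt, Hadwiger's covering problem).  Definitions and the list of statements.
-/

set_option autoImplicit false

namespace Pool.Agent.H332.HT

/-- the horizontal plane -/
abbrev V2 := ℝ × ℝ
/-- space: (horizontal part, height) -/
abbrev V3 := V2 × ℝ

/-- the determinant [a,b] -/
def det (a b : V2) : ℝ := a.1 * b.2 - a.2 * b.1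

/-- a normalised half-turn symmetric convex body -/
structure HB (K : Set V3) : Prop where
  cpt : IsCompact K
  cvx : Convex ℝ K
  symm : ∀ p : V2, ∀ z : ℝ, ((p, z) : V3) ∈ K → ((-p, z) : V3) ∈ K
  ht : ∀ p : V2, ∀ z : ℝ, ((p, z) : V3) ∈ K → |z| ≤ 1
  N : (((0 : V2), (1 : ℝ)) : V3) ∈ K
  S : (((0 : V2), (-1 : ℝ)) : V3) ∈ K
  int0 : (0 : V3) ∈ interior K

/-- the shadow of K -/
def P (K : Set V3) : Set V2 := Prod.fst '' K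
/-- the interior of the shadow -/
def IP (K : Set V3) : Set V2 := interior (P K)
/-- feasible directions at x -/
def T (K : Set V3) (x : V3) : Set V3 := {d | ∃ t : ℝ, 0 < t ∧ x + t • d ∈ K}
/-- directions which illuminate x -/
def C (K : Set V3) (x : V3) : Set V3 := {d | ∃ t : ℝ, 0 < t ∧ x + t • d ∈ interior K}

/-- the fibre over p is full -/
def Full (K : Set V3) (p : V2) : Prop := ((p, 1) : V3) ∈ K ∧ ((p, -1) : V3) ∈ K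

/-- eight directions illuminate K -/
def Lit8 (K : Set V3) : Prop :=
  ∃ L : Fin 8 → V3, ∀ x ∈ K, x ∉ interior K → ∃ i, L i ∈ C K x

/-- a parametrisation of the boundary of the shadow -/
structure Par (K : Set V3) (q : ℝ → V2) : Prop where
  cont : Continuous q
  mem : ∀ t, q t ∈ P K
  nint : ∀ t, q t ∉ IP K
  anti : ∀ t, q (t + Real.pi) = - q t
  pos : ∀ s t, s < t → t < s + Real.pi → 0 < det (q s) (q t)
  surj : ∀ p ∈ P K, p ∉ IP K → ∃ t, q t = p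

/-- one direction lights the whole closed arc [a,b] of fibres -/
def Good (K : Set V3) (q : ℝ → V2) (a b : ℝ) : Prop :=
  ∃ d : V3, ∀ t, a ≤ t → t ≤ b → ∀ z : ℝ, ((q t, z) : V3) ∈ K → d ∈ C K (q t, z)

/-- both colours occur over the closed arc [a,b] -/
def Bi (K : Set V3) (q : ℝ → V2) (a b : ℝ) : Prop :=
  (∃ t, a ≤ t ∧ t ≤ b ∧ ((q t, 1) : V3) ∈ K) ∧ (∃ t, a ≤ t ∧ t ≤ b ∧ ((q t, -1) : V3) ∈ K)

/-! ### basic facts -/

/-- BAS1: facts about the shadow -/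
def S_P : Prop := ∀ K : Set V3, HB K →
  IsCompact (P K) ∧ Convex ℝ (P K) ∧ (∀ p ∈ P K, -p ∈ P K) ∧ (0 : V2) ∈ IP K ∧
  (∀ p ∈ IP K, -p ∈ IP K) ∧ (∀ p ∈ IP K, p ∈ P K) ∧
  (∀ p ∈ IP K, ∀ r ∈ P K, ∀ s : ℝ, 0 < s → s ≤ 1 → s • p + (1 - s) • r ∈ IP K)

/-- BAS2: over interior points of the shadow there is an interior point of K, and conversely -/
def S_fib : Prop := ∀ K : Set V3, HB K →
  (∀ p ∈ IP K, ∃ z : ℝ, ((p, z) : V3) ∈ interior K) ∧ (∀ x ∈ interior K, x.1 ∈ IP K)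

/-- BAS3 -/
def S_IntK : Prop := ∀ K : Set V3, HB K → ∀ (p : V2) (z₁ z z₂ : ℝ), p ∈ IP K →
  ((p, z₁) : V3) ∈ K → ((p, z₂) : V3) ∈ K → z₁ < z → z < z₂ → ((p, z) : V3) ∈ interior K

/-- SUPP: supporting functionals of the shadow -/
def S_supp : Prop := ∀ K : Set V3, HB K → ∀ p ∈ P K, p ∉ IP K →
  ∃ f : V2 →ₗ[ℝ] ℝ, f p = 1 ∧ (∀ r ∈ P K, f r ≤ 1) ∧ (∀ r ∈ IP K, f r < 1)

/-- PAR -/
def S_par : Prop := ∀ K : Set V3, HB K → ∃ q : ℝ → V2, Par K q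

/-- KL1 -/
def S_KL1 : Prop := ∀ K : Set V3, HB K → ∀ a b p : V2, a ∈ P K → b ∈ P K → a ∉ IP K → b ∉ IP K →
  p ∈ P K → 0 < det a b → 0 ≤ det a p → 0 ≤ det p b → |det a p - det p b| ≤ det a b

/-- KL2: y lies beyond b, before -a -/
def S_KL2 : Prop := ∀ K : Set V3, HB K → ∀ a b y : V2, a ∈ P K → b ∈ P K → y ∉ IP K →
  0 < det a b → 0 ≤ det a y → 0 ≤ det b y →
  det a b ≤ det a y + det b y ∧
  ((1 / 2 : ℝ) • (a - b) ∈ IP K → 0 < det a y → 0 < det b y → det a b < det a y + det b y)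

/-- KL3: p between a and b -/
def S_KL3 : Prop := ∀ K : Set V3, HB K → ∀ a b p : V2, a ∈ P K → b ∈ P K → p ∉ IP K →
  0 < det a b → 0 ≤ det a p → 0 ≤ det p b → det a b ≤ det a p + det p b

/-! ### cones -/

/-- TC: algebra of the two cones at a point of K -/
def S_TC : Prop := ∀ K : Set V3, HB K → ∀ x ∈ K,
  (∀ d ∈ C K x, d ∈ T K x) ∧
  (∀ d ∈ T K x, ∀ s : ℝ, 0 ≤ s → s • d ∈ T K x) ∧
  (∀ d ∈ C K x, ∀ s : ℝ, 0 < s → s • d ∈ C K x) ∧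
  (∀ d ∈ T K x, ∀ e ∈ T K x, d + e ∈ T K x) ∧
  (∀ d ∈ T K x, ∀ e ∈ C K x, d + e ∈ C K x) ∧
  (∀ y ∈ K, y - x ∈ T K x) ∧
  (∀ d ∈ C K x, ∃ t₀ : ℝ, 0 < t₀ ∧ ∀ t : ℝ, 0 < t → t ≤ t₀ → x + t • d ∈ interior K)

/-- ITV: the slopes in a fixed direction form an interval -/
def S_itv : Prop := ∀ K : Set V3, HB K → ∀ x ∈ K, ∀ (v : V2) (k₀ k₁ k k₂ : ℝ),
  ((v, k₀) : V3) ∈ C K x → ((v, k₁) : V3) ∈ T K x → ((v, k₂) : V3) ∈ T K x →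
  k₁ < k → k < k₂ → ((v, k) : V3) ∈ C K x

/-- SYM: the half-turn -/
def S_sym : Prop := ∀ K : Set V3, HB K → ∀ (p v : V2) (z k : ℝ),
  ((v, k) : V3) ∈ C K (p, z) → ((-v, k) : V3) ∈ C K (-p, z)

/-- COP: lighting is an open condition -/
def S_Cop : Prop := ∀ K : Set V3, IsOpen {y : V3 × V3 | y.2 ∈ C K y.1}

/-- CONE: the basic directions at x = (p, ζ) with a partner y = (r, ω) -/
def S_cone : Prop := ∀ K : Set V3, HB K → ∀ (p r v : V2) (ζ ω W α ξ : ℝ),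
  ((p, ζ) : V3) ∈ K → ((r, ω) : V3) ∈ K → 0 < W → |ξ| ≤ α → W • v = -(α • p) + ξ • r →
  ((v, (α * (1 - ζ) - |ξ| * (1 - ω)) / W) : V3) ∈ T K (p, ζ) ∧
  ((v, (-(α * (1 + ζ)) + |ξ| * (1 + ω)) / W) : V3) ∈ T K (p, ζ)

/-- INW: the direction -(a+b) points strictly inwards in the sector (a,b) -/
def S_inw : Prop := ∀ K : Set V3, HB K → ∀ (a b p : V2) (z : ℝ), 0 < det a b →
  (1 / 2 : ℝ) • (a - b) ∈ IP K → ((p, z) : V3) ∈ K → p ≠ 0 → 0 ≤ det a p → 0 ≤ det p b →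
  |det a p - det p b| ≤ det a b → ∃ k : ℝ, ((-(a + b), k) : V3) ∈ C K (p, z)

/-- HEL: one-dimensional Helly with compactness -/
def S_hel : Prop := ∀ K : Set V3, HB K → ∀ Y : Set V3, Y ⊆ K → IsCompact Y → Y.Nonempty →
  ∀ v : V2, (∀ x ∈ Y, ∃ k : ℝ, ((v, k) : V3) ∈ C K x) →
  (∃ k : ℝ, ∀ x ∈ Y, ((v, k) : V3) ∈ C K x) ∨
  (∃ x ∈ Y, ∃ y ∈ Y, ∀ k l : ℝ, ((v, k) : V3) ∈ T K y → ((v, l) : V3) ∈ T K x → k ≤ l)

/-! ### arcs -/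

/-- GOP: goodness is open -/
def S_gop : Prop := ∀ K : Set V3, HB K → ∀ q : ℝ → V2, Par K q → ∀ a b : ℝ, a ≤ b →
  Good K q a b → ∃ ε : ℝ, 0 < ε ∧ Good K q (a - ε) (b + ε)

/-- GPT: a fibre which is not full is good -/
def S_gpt : Prop := ∀ K : Set V3, HB K → ∀ q : ℝ → V2, Par K q → ∀ t : ℝ, ¬ Full K (q t) →
  Good K q t t

/-- Q: the main inequality -/
def S_Q : Prop := ∀ K : Set V3, HB K → ∀ q : ℝ → V2, Par K q → ∀ a b c d : ℝ,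
  a < b → b < c → c < d → d < a + Real.pi →
  (1 / 2 : ℝ) • (q a - q b) ∈ IP K → (1 / 2 : ℝ) • (q c - q d) ∈ IP K →
  ¬ Good K q a b → ¬ Good K q c d → Bi K q a b ∧ Bi K q c d

/-- THREE: three good arcs give eight directions -/
def S_three : Prop := ∀ K : Set V3, HB K → ∀ q : ℝ → V2, Par K q → ∀ a s c : ℝ,
  a < s → s < c → c < a + Real.pi → Good K q a s → Good K q s c → Good K q c (a + Real.pi) →
  Lit8 K

/-- H8: both colours in both open sectors -/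
def S_H8 : Prop := ∀ K : Set V3, HB K → ∀ a b : V2, a ∈ P K → b ∈ P K → a ∉ IP K → b ∉ IP K →
  0 < det a b → (1 / 2 : ℝ) • (a - b) ∈ IP K → (1 / 2 : ℝ) • (a + b) ∈ IP K →
  (∃ y : V2, y ∉ IP K ∧ 0 < det a y ∧ 0 < det y b ∧ ((y, 1) : V3) ∈ K) →
  (∃ y : V2, y ∉ IP K ∧ 0 < det a y ∧ 0 < det y b ∧ ((y, -1) : V3) ∈ K) →
  (∃ y : V2, y ∉ IP K ∧ 0 < det a y ∧ 0 < det b y ∧ ((y, 1) : V3) ∈ K) →
  (∃ y : V2, y ∉ IP K ∧ 0 < det a y ∧ 0 < det b y ∧ ((y, -1) : V3) ∈ K) → Lit8 K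

/-- CH1: a chord which passes strictly outside of an extreme point -/
def S_ch1 : Prop := ∀ K : Set V3, HB K → ∀ q : ℝ → V2, Par K q → ∀ a₀ a b : ℝ,
  q a₀ ∈ Set.extremePoints ℝ (P K) → a < a₀ → a₀ < b → b < a + Real.pi →
  (1 / 2 : ℝ) • (q a + q b) ∈ IP K

/-- CH2 -/
def S_ch2 : Prop := ∀ K : Set V3, HB K → ∀ q : ℝ → V2, Par K q → ∀ a b t : ℝ,
  (a < b → b ≤ t → t < a + Real.pi → (1 / 2 : ℝ) • (q t - q a) ∈ IP K →
    (1 / 2 : ℝ) • (q b - q a) ∈ IP K) ∧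
  (a < t → t ≤ b → b < a + Real.pi → (1 / 2 : ℝ) • (q t + q a) ∈ IP K →
    (1 / 2 : ℝ) • (q b + q a) ∈ IP K)

/-- CH3 -/
def S_ch3 : Prop := ∀ K : Set V3, HB K → ∀ q : ℝ → V2, Par K q → ∀ a w c : ℝ,
  a < w → w < c → c < a + Real.pi → (1 / 2 : ℝ) • (q w - q a) ∉ IP K →
  (1 / 2 : ℝ) • (q c + q a) ∈ IP K

/-- CLA -/
def S_A : Prop := ∀ K : Set V3, HB K → ∀ q : ℝ → V2, Par K q → (∀ t, ¬ Full K (q t)) →
  ¬ Lit8 K → ∀ a₀ : ℝ, q a₀ ∈ Set.extremePoints ℝ (P K) → ∀ t : ℝ, a₀ < t →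
  t < a₀ + Real.pi → (1 / 2 : ℝ) • (q t - q a₀) ∈ IP K → Good K q a₀ t

/-- CLB -/
def S_B : Prop := ∀ K : Set V3, HB K → ∀ q : ℝ → V2, Par K q → (∀ t, ¬ Full K (q t)) →
  ¬ Lit8 K → ∀ a₀ : ℝ, q a₀ ∈ Set.extremePoints ℝ (P K) → ∀ t : ℝ, a₀ < t →
  t < a₀ + Real.pi → (1 / 2 : ℝ) • (q t + q a₀) ∈ IP K → Good K q t (a₀ + Real.pi)

/-- NF: bodies without a full fibre over the boundary of the shadow -/
def S_NF : Prop := ∀ K : Set V3, HB K → (∀ p, p ∈ P K → p ∉ IP K → ¬ Full K p) → Lit8 K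

/-! ### a full fibre -/

/-- C1 -/
def S_C1 : Prop := ∀ K : Set V3, HB K → ∀ x b : V2, Full K x → x ∉ IP K → b ∈ P K → b ∉ IP K →
  0 < det x b → (1 / 2 : ℝ) • (x - b) ∈ IP K → (1 / 2 : ℝ) • (x + b) ∈ IP K →
  ∀ (u : V2) (κ : ℝ), (∀ p : V2, ((p, -1) : V3) ∈ K →
    ((u, κ) : V3) ∈ C K (p, -1) ∨ ((-u, κ) : V3) ∈ C K (p, -1)) → Lit8 K

/-- BALL: a point A of the bottom face Q inside the shadow with an inner touching disc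
(centre A - n, radius |n|), and the tangent u there supports Q -/
def S_ball : Prop := ∀ K : Set V3, HB K → ∀ x y m : V2, ((x, -1) : V3) ∈ K →
  ((y, -1) : V3) ∈ K → det x y ≠ 0 → m ∈ IP K → ((m, -1) : V3) ∉ K →
  ∃ A n : V2, n ≠ 0 ∧ A ∈ IP K ∧ ((A, -1) : V3) ∈ K ∧
  (∀ e : V2, e.1 ^ 2 + e.2 ^ 2 < n.1 ^ 2 + n.2 ^ 2 → ((A - n + e, -1) : V3) ∈ K) ∧
  (∀ p : V2, ((p, -1) : V3) ∈ K → n.1 * p.1 + n.2 * p.2 ≤ n.1 * A.1 + n.2 * A.2) ∧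
  0 < n.1 * A.1 + n.2 * A.2 ∧
  (∀ s : ℝ, |s| < 1 → s • A ∈ interior {p : V2 | ((p, -1) : V3) ∈ K})

/-- TAN: the touching point is lit by (u, κ) for every κ > 0 -/
def S_tan : Prop := ∀ K : Set V3, HB K → ∀ A n : V2, n ≠ 0 → A ∈ IP K → ((A, -1) : V3) ∈ K →
  (∀ e : V2, e.1 ^ 2 + e.2 ^ 2 < n.1 ^ 2 + n.2 ^ 2 → ((A - n + e, -1) : V3) ∈ K) →
  ∀ κ : ℝ, 0 < κ → (((-n.2, n.1), κ) : V3) ∈ C K (A, -1)

/-- ULEM: the bottom face is lit by a pair of directions -/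
def S_ulem : Prop := ∀ K : Set V3, HB K → ∀ x m : V2, Full K x → x ∉ IP K → m ∈ IP K →
  ((m, -1) : V3) ∉ K → ∃ (u : V2) (κ : ℝ), ∀ p : V2, ((p, -1) : V3) ∈ K →
    ((u, κ) : V3) ∈ C K (p, -1) ∨ ((-u, κ) : V3) ∈ C K (p, -1)

/-- PLG: if no chord pair is good the shadow is a parallelogram -/
def S_plg : Prop := ∀ K : Set V3, HB K → ∀ x ∈ P K, x ∉ IP K →
  (∀ b ∈ P K, b ∉ IP K → 0 < det x b →
    (1 / 2 : ℝ) • (x - b) ∉ IP K ∨ (1 / 2 : ℝ) • (x + b) ∉ IP K) →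
  ∃ c ∈ P K, c ∉ IP K ∧ 0 < det x c ∧ ∀ p ∈ P K, |det p c| + |det x p| ≤ det x c

/-- SIX: shadow a parallelogram with a full corner x and a non-full corner c -/
def S_six : Prop := ∀ K : Set V3, HB K → ∀ x c : V2, Full K x → x ∉ IP K → c ∈ P K → c ∉ IP K →
  0 < det x c → (∀ p ∈ P K, |det p c| + |det x p| ≤ det x c) → ¬ Full K c → Lit8 K

/-- the reflected body -/
def refl (K : Set V3) : Set V3 := {x | ((x.1, -x.2) : V3) ∈ K}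

/-- REFL -/
def S_refl : Prop := ∀ K : Set V3, HB K → HB (refl K) ∧ P (refl K) = P K ∧
  (Lit8 (refl K) → Lit8 K)

/-- MAIN -/
def S_main : Prop := ∀ K : Set V3, HB K → Lit8 K

end Pool.Agent.H332.HT
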