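import Pool.Agent.H332.HT.Defs

/-!
Project HT: from the normalised statement to arbitrary half-turn symmetric bodies of (R x R) x R.
-/

set_option autoImplicit false

open Set Filter Topology

namespace Pool.Agent.H332.HT

/-- the affine change of the height -/
noncomputable def eH (m h : ℝ) (hh : h ≠ 0) : V3 ≃ₜ V3 where
  toFun x := (x.1, m + h * x.2)
  invFun y := (y.1, (y.2 - m) / h)
  left_inv x := by
    ext
    · rfl
    · rfl
    · simp only; field_simp; ring
  right_inv y := by
    ext
    · rfl
    · rfl
    · simp only; field_simp; ring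
  continuous_toFun := by fun_prop
  continuous_invFun := by fun_prop

theorem lights8 (hmain : S_main) (K : Set V3) (hcv : Convex ℝ K) (hcp : IsCompact K)
    (hne : (interior K).Nonempty) (hsym : ∀ x ∈ K, ((-x.1, x.2) : V3) ∈ K) :
    ∃ D : Finset V3, D.card ≤ 8 ∧ ∀ x ∈ K, ∃ d ∈ D, ∃ t : ℝ, 0 < t ∧ x + t • d ∈ interior K := by
  obtain ⟨x₀, hx₀⟩ := hne
  have hKne : K.Nonempty := ⟨x₀, interior_subset hx₀⟩
  -- symmetrisation of points
  have hax : ∀ x ∈ K, (((0 : V2), x.2) : V3) ∈ K := by
    intro x hx
    have := hcv hx (hsym x hx) (show (0 : ℝ) ≤ 1 / 2 by norm_num)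
      (show (0 : ℝ) ≤ 1 / 2 by norm_num) (by norm_num)
    have h2 : (1 / 2 : ℝ) • x + (1 / 2 : ℝ) • ((-x.1, x.2) : V3) = (((0 : V2), x.2) : V3) := by
      ext
      · simp
      · simp
      · simp only [Prod.snd_add, Prod.smul_snd, smul_eq_mul]; ring
    rwa [h2] at this
  obtain ⟨a, haK, ha⟩ := hcp.exists_isMaxOn hKne continuous_snd.continuousOn
  obtain ⟨b, hbK, hb⟩ := hcp.exists_isMinOn hKne continuous_snd.continuousOn
  have ha' : ∀ x ∈ K, x.2 ≤ a.2 := fun x hx => ha hx
  have hb' : ∀ x ∈ K, b.2 ≤ x.2 := fun x hx => hb hx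
  -- the reflected homeomorphism
  let ρ : V3 ≃ₜ V3 :=
    { toFun := fun x => (-x.1, x.2)
      invFun := fun x => (-x.1, x.2)
      left_inv := fun x => by simp
      right_inv := fun x => by simp
      continuous_toFun := by fun_prop
      continuous_invFun := by fun_prop }
  have hρK : ρ ⁻¹' K = K := by
    ext x
    constructor
    · intro h
      have := hsym _ h
      simpa [ρ] using this
    · intro h
      exact hsym _ h
  have hρi : ∀ x ∈ interior K, ((-x.1, x.2) : V3) ∈ interior K := by
    intro x hx
    have h1 : ρ ⁻¹' interior K = interior K := by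
      rw [ρ.preimage_interior, hρK]
    have h2 : x ∈ ρ ⁻¹' interior K := by rw [h1]; exact hx
    exact h2
  have h0i : (((0 : V2), x₀.2) : V3) ∈ interior K := by
    have := (hcv.interior) hx₀ (hρi x₀ hx₀) (show (0 : ℝ) ≤ 1 / 2 by norm_num)
      (show (0 : ℝ) ≤ 1 / 2 by norm_num) (by norm_num)
    have h2 : (1 / 2 : ℝ) • x₀ + (1 / 2 : ℝ) • ((-x₀.1, x₀.2) : V3) =
        (((0 : V2), x₀.2) : V3) := by
      ext
      · simp
      · simp
      · simp only [Prod.snd_add, Prod.smul_snd, smul_eq_mul]; ring
    rwa [h2] at this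
  -- heights of interior points are strictly between
  have hcontz : Continuous (fun t : ℝ => (((0 : V2), x₀.2 + t) : V3)) := by fun_prop
  have hopen : IsOpen ((fun t : ℝ => (((0 : V2), x₀.2 + t) : V3)) ⁻¹' interior K) :=
    isOpen_interior.preimage hcontz
  obtain ⟨ε, hε, hball⟩ := Metric.isOpen_iff.1 hopen 0 (by simpa using h0i)
  have hup : x₀.2 < a.2 := by
    have h1 : (ε / 2 : ℝ) ∈ Metric.ball (0 : ℝ) ε := by
      rw [Metric.mem_ball, dist_zero_right, Real.norm_eq_abs, abs_of_pos (by positivity)]
      linarith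
    have := ha' _ (interior_subset (hball h1))
    simp only at this
    linarith
  have hdn : b.2 < x₀.2 := by
    have h1 : (-(ε / 2) : ℝ) ∈ Metric.ball (0 : ℝ) ε := by
      rw [Metric.mem_ball, dist_zero_right, Real.norm_eq_abs, abs_neg, abs_of_pos (by positivity)]
      linarith
    have := hb' _ (interior_subset (hball h1))
    simp only at this
    linarith
  have hh : 0 < (a.2 - b.2) / 2 := by linarith
  set h := (a.2 - b.2) / 2 with hhdef
  set m := (a.2 + b.2) / 2 with hmdef
  have hmem : ∀ x : V3, x ∈ (eH m h hh.ne') ⁻¹' K ↔ ((x.1, m + h * x.2) : V3) ∈ K :=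
    fun x => Iff.rfl
  have hint : interior ((eH m h hh.ne') ⁻¹' K) = (eH m h hh.ne') ⁻¹' interior K :=
    ((eH m h hh.ne').preimage_interior K).symm
  have hHB : HB ((eH m h hh.ne') ⁻¹' K) := by
    refine ⟨(eH m h hh.ne').isCompact_preimage.2 hcp, ?_, ?_, ?_, ?_, ?_, ?_⟩
    · intro x hx y hy s t hs ht hst
      rw [hmem] at hx hy ⊢
      have := hcv hx hy hs ht hst
      have h2 : s • ((x.1, m + h * x.2) : V3) + t • ((y.1, m + h * y.2) : V3) =
          (((s • x + t • y).1, m + h * (s • x + t • y).2) : V3) := by
        ext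
        · simp
        · simp
        · simp only [Prod.snd_add, Prod.smul_snd, smul_eq_mul]
          have : t = 1 - s := by linarith
          subst this
          ring
      rwa [h2] at this
    · intro p z hz
      rw [hmem] at hz ⊢
      exact hsym _ hz
    · intro p z hz
      rw [hmem] at hz
      have h1 := ha' _ hz
      have h2 := hb' _ hz
      simp only at h1 h2
      rw [abs_le]
      constructor
      · by_contra hcon
        push Not at hcon
        nlinarith
      · by_contra hcon
        push Not at hcon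
        nlinarith
    · rw [hmem]
      have := hax a haK
      have e : m + h * 1 = a.2 := by rw [hhdef, hmdef]; ring
      simp only
      rw [e]; exact this
    · rw [hmem]
      have := hax b hbK
      have e : m + h * (-1) = b.2 := by rw [hhdef, hmdef]; ring
      simp only
      rw [e]; exact this
    · rw [hint]
      show (((0 : V3).1, m + h * (0 : V3).2) : V3) ∈ interior K
      simp only [Prod.fst_zero, Prod.snd_zero, mul_zero, add_zero]
      -- m lies between b.2 and a.2
      rcases le_total m x₀.2 with hm | hm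
      · -- combination of x₀.2 and b.2
        have hs : (((0 : V2), b.2) : V3) ∈ K := hax b hbK
        have hpos : 0 < x₀.2 - b.2 := by linarith
        have hmb : 0 < m - b.2 := by rw [hmdef]; linarith
        have := hcv.combo_interior_self_mem_interior h0i hs
          (show 0 < (m - b.2) / (x₀.2 - b.2) by positivity)
          (show 0 ≤ 1 - (m - b.2) / (x₀.2 - b.2) by
            rw [sub_nonneg, div_le_one hpos]; linarith) (by ring)
        have e : ((m - b.2) / (x₀.2 - b.2)) • (((0 : V2), x₀.2) : V3) +
            (1 - (m - b.2) / (x₀.2 - b.2)) • (((0 : V2), b.2) : V3) = (((0 : V2), m) : V3) := by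
          ext
          · simp
          · simp
          · simp only [Prod.snd_add, Prod.smul_snd, smul_eq_mul]
            field_simp
            ring
        rwa [e] at this
      · have hs : (((0 : V2), a.2) : V3) ∈ K := hax a haK
        have hpos : 0 < a.2 - x₀.2 := by linarith
        have hmb : 0 < a.2 - m := by rw [hmdef]; linarith
        have := hcv.combo_interior_self_mem_interior h0i hs
          (show 0 < (a.2 - m) / (a.2 - x₀.2) by positivity)
          (show 0 ≤ 1 - (a.2 - m) / (a.2 - x₀.2) by
            rw [sub_nonneg, div_le_one hpos]; linarith) (by ring)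
        have e : ((a.2 - m) / (a.2 - x₀.2)) • (((0 : V2), x₀.2) : V3) +
            (1 - (a.2 - m) / (a.2 - x₀.2)) • (((0 : V2), a.2) : V3) = (((0 : V2), m) : V3) := by
          ext
          · simp
          · simp
          · simp only [Prod.snd_add, Prod.smul_snd, smul_eq_mul]
            field_simp
            ring
        rwa [e] at this
  obtain ⟨L, hL⟩ := hmain _ hHB
  classical
  refine ⟨Finset.univ.image (fun i : Fin 8 => (((L i).1, h * (L i).2) : V3)),
    Finset.card_image_le.trans (by simp), ?_⟩
  intro x hx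
  by_cases hxi : x ∈ interior K
  · refine ⟨_, Finset.mem_image_of_mem _ (Finset.mem_univ 0), ?_⟩
    have hc : Continuous (fun t : ℝ => x + t • (((L 0).1, h * (L 0).2) : V3)) := by fun_prop
    have ho : IsOpen ((fun t : ℝ => x + t • (((L 0).1, h * (L 0).2) : V3)) ⁻¹' interior K) :=
      isOpen_interior.preimage hc
    obtain ⟨δ, hδ, hb2⟩ := Metric.isOpen_iff.1 ho 0 (by
      show x + (0 : ℝ) • (((L 0).1, h * (L 0).2) : V3) ∈ interior K
      rw [zero_smul, add_zero]
      exact hxi)
    refine ⟨δ / 2, by positivity, ?_⟩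
    have h1 : (δ / 2 : ℝ) ∈ Metric.ball (0 : ℝ) δ := by
      rw [Metric.mem_ball, dist_zero_right, Real.norm_eq_abs, abs_of_pos (by positivity)]
      linarith
    exact hb2 h1
  · set x' : V3 := (eH m h hh.ne').symm x with hx'
    have hex : (eH m h hh.ne') x' = x := by rw [hx']; exact Homeomorph.apply_symm_apply _ _
    have hx'K : x' ∈ (eH m h hh.ne') ⁻¹' K := by
      show (eH m h hh.ne') x' ∈ K
      rw [hex]; exact hx
    have hx'i : x' ∉ interior ((eH m h hh.ne') ⁻¹' K) := by
      rw [hint]
      show ¬ (eH m h hh.ne') x' ∈ interior K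
      rw [hex]; exact hxi
    obtain ⟨i, t, ht, hti⟩ := hL x' hx'K hx'i
    refine ⟨_, Finset.mem_image_of_mem _ (Finset.mem_univ i), t, ht, ?_⟩
    rw [hint] at hti
    have h3 : (eH m h hh.ne') (x' + t • L i) ∈ interior K := hti
    have h4 : (eH m h hh.ne') (x' + t • L i) = x + t • (((L i).1, h * (L i).2) : V3) := by
      rw [← hex]
      show (((x' + t • L i).1, m + h * (x' + t • L i).2) : V3) =
        ((x'.1, m + h * x'.2) : V3) + t • (((L i).1, h * (L i).2) : V3)
      ext
      · simp
      · simp
      · simp only [Prod.snd_add, Prod.smul_snd, smul_eq_mul]; ring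
    rwa [h4] at h3

end Pool.Agent.H332.HT
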