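import Pool.Agent.H332.HT.Main
import Pool.Agent.H332.HT.Wrap
import Pool.Agent.H824.HT.Bas
import Pool.Agent.H396.HT.Supp
import Pool.Agent.H271.HT.Par
import Pool.Agent.H764.HT.KL
import Pool.Agent.H289.HT.TC
import Pool.Agent.H350.HT.Cone
import Pool.Agent.H548.HT.Hel
import Pool.Agent.H348.HT.Gop
import Pool.Agent.H387.HT.GPT
import Pool.Agent.H139.HT.Qthm
import Pool.Agent.H795.HT.Three
import Pool.Agent.H947.HT.H8
import Pool.Agent.H719.HT.CH
import Pool.Agent.H120.HT.ClA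
import Pool.Agent.H332.HT.ClB
import Pool.Agent.H231.HT.NF
import Pool.Agent.H100.HT.C1
import Pool.Agent.H694.HT.Ball
import Pool.Agent.H694.HT.Tan
import Pool.Agent.H94.HT.Ulem
import Pool.Agent.H337.HT.Plg
import Pool.Agent.H390.HT.Six
import Pool.Agent.H643.HT.Refl

/-!
Project HT: every half-turn symmetric convex body is illuminated by eight directions.
-/

set_option autoImplicit false

namespace Pool.Agent.H332.HT

theorem pP : S_P := Pool.Agent.H824.HT.basP
theorem pFib : S_fib := Pool.Agent.H824.HT.basFib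
theorem pIntK : S_IntK := Pool.Agent.H824.HT.basIntK
theorem pSupp : S_supp := Pool.Agent.H396.HT.supp pP
theorem pPar : S_par := Pool.Agent.H271.HTPar.par pP
theorem pKL1 : S_KL1 := Pool.Agent.H764.HTKL.kl1 pP
theorem pKL2 : S_KL2 := Pool.Agent.H764.HTKL.kl2 pP
theorem pKL3 : S_KL3 := Pool.Agent.H764.HTKL.kl3 pP
theorem pTC : S_TC := Pool.Agent.H289.HT.tc
theorem pItv : S_itv := Pool.Agent.H289.HT.itv pTC
theorem pSym : S_sym := Pool.Agent.H289.HT.sym
theorem pCop : S_Cop := Pool.Agent.H289.HT.cop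
theorem pCone : S_cone := Pool.Agent.H350.HT.cone pTC
theorem pInw : S_inw := Pool.Agent.H350.HT.inw pP pFib
theorem pHel : S_hel := Pool.Agent.H548.HT.hel pTC pItv pCop
theorem pGop : S_gop := Pool.Agent.H348.HT.Gop.gop pCop
theorem pGpt : S_gpt := Pool.Agent.H387.HT.gpt pP pIntK
theorem pQ : S_Q := Pool.Agent.H139.HT.Qthm pP pTC pCone pInw pHel pKL1 pKL2
theorem pThree : S_three := Pool.Agent.H795.HT.three pP pFib pIntK pSym
theorem pH8 : S_H8 := Pool.Agent.H947.HT.H8 pP pFib pIntK pTC pItv pSym pCone pInw pKL1 pKL2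
theorem pCh1 : S_ch1 := Pool.Agent.H719.HT.ch1 pP pSupp pKL3
theorem pCh2 : S_ch2 := Pool.Agent.H719.HT.ch2 pP pSupp pKL3
theorem pCh3 : S_ch3 := Pool.Agent.H719.HT.ch3 pP pSupp pKL3
theorem pA : S_A := Pool.Agent.H120.HT.clA pP pGop pGpt pQ pThree pH8 pCh1 pCh2
theorem pB : S_B := Pool.Agent.H332.HTB.clB pP pGop pGpt pQ pThree pH8 pCh1 pCh2
theorem pNF : S_NF := Pool.Agent.H231.HT.nf pP pPar pGop pGpt pThree pCh2 pCh3 pA pB
theorem pC1 : S_C1 := Pool.Agent.H100.HTC1.c1 pP pFib pIntK pTC pItv pSym pCop pCone pInw pKL1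
theorem pBall : S_ball := Pool.Agent.H694.HT.ball pP
theorem pTan : S_tan := Pool.Agent.H694.HT.tan pP pFib pIntK
theorem pUlem : S_ulem := Pool.Agent.H94.HT.ulem pP pFib pIntK pTC pSym pCop pBall pTan
theorem pPlg : S_plg := Pool.Agent.H337.HT.plg pP pSupp pPar
theorem pSix : S_six := Pool.Agent.H390.HT.six pP pFib pIntK pSym pCop
theorem pRefl : S_refl := Pool.Agent.H643.HT.refl_thm

/-- **Every half-turn symmetric convex body (normalised) is illuminated by eight directions.** -/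
theorem halfturn : ∀ K : Set V3, HB K → Lit8 K :=
  main pP pH8 pNF pC1 pUlem pPlg pSix pRefl

end Pool.Agent.H332.HT

namespace Pool.Agent.H332.HT

/-- **Every half-turn symmetric convex body of `(ℝ × ℝ) × ℝ` is illuminated by eight
directions.** -/
theorem lights8_all (K : Set ((ℝ × ℝ) × ℝ)) (hcv : Convex ℝ K) (hcp : IsCompact K)
    (hne : (interior K).Nonempty) (hsym : ∀ x ∈ K, (-x.1, x.2) ∈ K) :
    ∃ D : Finset ((ℝ × ℝ) × ℝ), D.card ≤ 8 ∧
      ∀ x ∈ K, ∃ d ∈ D, ∃ t : ℝ, 0 < t ∧ x + t • d ∈ interior K :=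
  lights8 halfturn K hcv hcp hne hsym

end Pool.Agent.H332.HT
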