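import Pool.Agent.H332.HT.Defs

/-!
Project HT: the case distinction.
-/

set_option autoImplicit false

open Set Filter Topology

namespace Pool.Agent.H332.HT

theorem det_smul_right (a b : V2) (r : ℝ) : det a (r • b) = r * det a b := by
  simp only [det, Prod.smul_fst, Prod.smul_snd, smul_eq_mul]; ring

theorem det_smul_left (a b : V2) (r : ℝ) : det (r • a) b = r * det a b := by
  simp only [det, Prod.smul_fst, Prod.smul_snd, smul_eq_mul]; ring

theorem det_add_right (a b c : V2) : det a (b + c) = det a b + det a c := by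
  simp only [det, Prod.fst_add, Prod.snd_add]; ring

theorem det_add_left (a b c : V2) : det (a + b) c = det a c + det b c := by
  simp only [det, Prod.fst_add, Prod.snd_add]; ring

theorem det_sub_right (a b c : V2) : det a (b - c) = det a b - det a c := by
  simp only [det, Prod.fst_sub, Prod.snd_sub]; ring

theorem det_sub_left (a b c : V2) : det (a - b) c = det a c - det b c := by
  simp only [det, Prod.fst_sub, Prod.snd_sub]; ring

theorem det_self (a : V2) : det a a = 0 := by
  simp only [det]; ring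

theorem det_neg_right (a b : V2) : det a (-b) = - det a b := by
  simp only [det, Prod.fst_neg, Prod.snd_neg]; ring

theorem det_neg_left (a b : V2) : det (-a) b = - det a b := by
  simp only [det, Prod.fst_neg, Prod.snd_neg]; ring

theorem det_swap (a b : V2) : det a b = - det b a := by
  simp only [det]; ring

/-- a boundary point of the shadow in every direction -/
theorem dirpt (hP : S_P) {K : Set V3} (hK : HB K) {v : V2} (hv : v ≠ 0) :
    ∃ r : ℝ, 0 < r ∧ r • v ∈ P K ∧ r • v ∉ IP K := by
  obtain ⟨hc, hcv, hs, h0, -, hIP, hseg⟩ := hP K hK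
  have h0P : (0 : V2) ∈ P K := hIP 0 h0
  set S : Set ℝ := {r | 0 ≤ r ∧ r • v ∈ P K} with hS
  have hcont : Continuous (fun r : ℝ => r • v) := by fun_prop
  have hScl : IsClosed S := by
    have : S = Ici 0 ∩ (fun r : ℝ => r • v) ⁻¹' (P K) := by ext; simp [hS]
    rw [this]
    exact isClosed_Ici.inter (hc.isClosed.preimage hcont)
  have hSne : S.Nonempty := ⟨0, le_refl _, by simpa using h0P⟩
  obtain ⟨R, hR⟩ := hc.isBounded.exists_norm_le
  have hvn : 0 < ‖v‖ := norm_pos_iff.2 hv
  have hSb : BddAbove S := by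
    refine ⟨R / ‖v‖, ?_⟩
    rintro r ⟨hr, hrv⟩
    have := hR _ hrv
    rw [norm_smul, Real.norm_eq_abs, abs_of_nonneg hr] at this
    rw [le_div_iff₀ hvn]
    exact this
  have hmem := hScl.csSup_mem hSne hSb
  set r := sSup S with hr
  -- positivity
  have hopen : IsOpen ((fun r : ℝ => r • v) ⁻¹' (IP K)) := isOpen_interior.preimage hcont
  have hpos : 0 < r := by
    have h1 : (0 : ℝ) ∈ (fun r : ℝ => r • v) ⁻¹' (IP K) := by
      simpa using h0
    obtain ⟨ε, hε, hball⟩ := Metric.isOpen_iff.1 hopen 0 h1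
    have h2 : ε / 2 ∈ S := by
      refine ⟨by positivity, hIP _ ?_⟩
      have : (ε / 2) ∈ Metric.ball (0 : ℝ) ε := by
        rw [Metric.mem_ball, dist_zero_right, Real.norm_eq_abs, abs_of_pos (by positivity)]
        linarith
      exact hball this
    have := le_csSup hSb h2
    linarith
  refine ⟨r, hpos, hmem.2, fun hin => ?_⟩
  obtain ⟨ε, hε, hball⟩ := Metric.isOpen_iff.1 hopen r hin
  have h2 : r + ε / 2 ∈ S := by
    refine ⟨by positivity, hIP _ ?_⟩
    have : (r + ε / 2) ∈ Metric.ball r ε := by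
      rw [Metric.mem_ball, Real.dist_eq, add_sub_cancel_left, abs_of_pos (by positivity)]
      linarith
    exact hball this
  have := le_csSup hSb h2
  linarith

theorem main (hP : S_P) (h8 : S_H8) (hNF : S_NF) (hC1 : S_C1) (hul : S_ulem) (hplg : S_plg)
    (hsix : S_six) (hrefl : S_refl) : S_main := by
  intro K hK
  obtain ⟨hc, hcv, hs, h0, hIPs, hIP, hseg⟩ := hP K hK
  by_cases hnf : ∀ p, p ∈ P K → p ∉ IP K → ¬ Full K p
  · exact hNF K hK hnf
  push Not at hnf
  obtain ⟨x, hx, hxi, hfx⟩ := hnf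
  have hfneg : ∀ p, Full K p → Full K (-p) := fun p hp => ⟨hK.symm _ _ hp.1, hK.symm _ _ hp.2⟩
  have hfmid : ∀ p r, Full K p → Full K r → Full K ((1 / 2 : ℝ) • (p + r)) := by
    intro p r hp hr
    constructor
    · have := hK.cvx hp.1 hr.1 (show (0 : ℝ) ≤ 1 / 2 by norm_num) (show (0 : ℝ) ≤ 1 / 2 by norm_num)
        (by norm_num)
      have h2 : ((1 / 2 : ℝ) • ((p, (1 : ℝ)) : V3) + (1 / 2 : ℝ) • ((r, (1 : ℝ)) : V3)) =
          (((1 / 2 : ℝ) • (p + r), (1 : ℝ)) : V3) := by
        ext <;> simp <;> ring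
      rwa [h2] at this
    · have := hK.cvx hp.2 hr.2 (show (0 : ℝ) ≤ 1 / 2 by norm_num) (show (0 : ℝ) ≤ 1 / 2 by norm_num)
        (by norm_num)
      have h2 : ((1 / 2 : ℝ) • ((p, (-1 : ℝ)) : V3) + (1 / 2 : ℝ) • ((r, (-1 : ℝ)) : V3)) =
          (((1 / 2 : ℝ) • (p + r), (-1 : ℝ)) : V3) := by
        ext <;> simp <;> ring
      rwa [h2] at this
  have hfP : ∀ p, Full K p → p ∈ P K := fun p hp => ⟨_, hp.1, rfl⟩
  by_cases hch : ∀ b ∈ P K, b ∉ IP K → 0 < det x b →
      (1 / 2 : ℝ) • (x - b) ∉ IP K ∨ (1 / 2 : ℝ) • (x + b) ∉ IP K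
  · -- the shadow is a parallelogram
    obtain ⟨c, hcP, hci, hD, hpl⟩ := hplg K hK x hx hxi hch
    by_cases hfc : Full K c
    · -- a parallelepiped
      have hnin : ∀ p, |det p c| + |det x p| = det x c → p ∉ IP K := by
        intro p hp hin
        have hcont : Continuous (fun r : ℝ => r • p) := by fun_prop
        have hopen : IsOpen ((fun r : ℝ => r • p) ⁻¹' (IP K)) := isOpen_interior.preimage hcont
        have h1 : (1 : ℝ) ∈ (fun r : ℝ => r • p) ⁻¹' (IP K) := by simpa using hin
        obtain ⟨ε, hε, hball⟩ := Metric.isOpen_iff.1 hopen 1 h1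
        have h2 : (1 + ε / 2) • p ∈ IP K := by
          have : (1 + ε / 2) ∈ Metric.ball (1 : ℝ) ε := by
            rw [Metric.mem_ball, Real.dist_eq, add_sub_cancel_left, abs_of_pos (by positivity)]
            linarith
          exact hball this
        have h3 := hpl _ (hIP _ h2)
        rw [det_smul_left, det_smul_right, abs_mul, abs_mul, abs_of_pos (by positivity :
          (0 : ℝ) < 1 + ε / 2)] at h3
        have h4 : (1 + ε / 2) * (|det p c| + |det x p|) ≤ det x c := by linarith
        rw [hp] at h4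
        nlinarith
      have ha : Full K ((1 / 2 : ℝ) • (x + c)) := hfmid _ _ hfx hfc
      have hb : Full K ((1 / 2 : ℝ) • (c + -x)) := hfmid _ _ hfc (hfneg _ hfx)
      have hcx : det c x = - det x c := det_swap _ _
      have hcc := det_self c
      have hxx := det_self x
      have h12 : (0 : ℝ) < 1 / 2 := by norm_num
      have hxin : (1 / 2 : ℝ) • x ∈ IP K := by
        have := hseg 0 h0 x hx (1 / 2) (by norm_num) (by norm_num)
        have h2 : (1 / 2 : ℝ) • (0 : V2) + (1 - 1 / 2 : ℝ) • x = (1 / 2 : ℝ) • x := by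
          rw [smul_zero, zero_add]; norm_num
        rwa [h2] at this
      have hcin : (1 / 2 : ℝ) • c ∈ IP K := by
        have := hseg 0 h0 c hcP (1 / 2) (by norm_num) (by norm_num)
        have h2 : (1 / 2 : ℝ) • (0 : V2) + (1 - 1 / 2 : ℝ) • c = (1 / 2 : ℝ) • c := by
          rw [smul_zero, zero_add]; norm_num
        rwa [h2] at this
      have ha' : (1 / 2 : ℝ) • (x + c) ∉ IP K := by
        refine hnin _ ?_
        rw [det_smul_left, det_smul_right, det_add_left, det_add_right, hcc, hxx]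
        rw [abs_of_pos (by nlinarith), abs_of_pos (by nlinarith)]
        ring
      have hb' : (1 / 2 : ℝ) • (c + -x) ∉ IP K := by
        refine hnin _ ?_
        rw [det_smul_left, det_smul_right, det_add_left, det_add_right, det_neg_left,
          det_neg_right, hcc, hxx]
        rw [show (1 / 2 : ℝ) * (0 + -det x c) = -(1 / 2 * det x c) by ring, abs_neg,
          abs_of_pos (by nlinarith), abs_of_pos (by nlinarith)]
        ring
      refine h8 K hK _ _ (hfP _ ha) (hfP _ hb) ha' hb' ?_ ?_ ?_ ⟨c, hci, ?_, ?_, hfc.1⟩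
        ⟨c, hci, ?_, ?_, hfc.2⟩ ⟨-x, ?_, ?_, ?_, (hfneg _ hfx).1⟩ ⟨-x, ?_, ?_, ?_, (hfneg _ hfx).2⟩
      · rw [det_smul_left, det_smul_right, det_add_left, det_add_right, det_add_right,
          det_neg_right, det_neg_right, hcc, hxx, hcx]
        nlinarith
      · have : (1 / 2 : ℝ) • ((1 / 2 : ℝ) • (x + c) - (1 / 2 : ℝ) • (c + -x)) =
            (1 / 2 : ℝ) • x := by
          rw [← smul_sub]
          rw [show x + c - (c + -x) = (2 : ℝ) • x by rw [two_smul]; abel]
          rw [smul_smul, smul_smul]; norm_num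
        rw [this]; exact hxin
      · have : (1 / 2 : ℝ) • ((1 / 2 : ℝ) • (x + c) + (1 / 2 : ℝ) • (c + -x)) =
            (1 / 2 : ℝ) • c := by
          rw [← smul_add]
          rw [show x + c + (c + -x) = (2 : ℝ) • c by rw [two_smul]; abel]
          rw [smul_smul, smul_smul]; norm_num
        rw [this]; exact hcin
      · rw [det_smul_left, det_add_left, hcc]; nlinarith
      · rw [det_smul_right, det_add_right, det_neg_right, hcc, hcx]; nlinarith
      · rw [det_smul_left, det_add_left, hcc]; nlinarith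
      · rw [det_smul_right, det_add_right, det_neg_right, hcc, hcx]; nlinarith
      · intro h; exact hxi (by simpa using hIPs _ h)
      · rw [det_smul_left, det_add_left, det_neg_right, det_neg_right, hxx, hcx]; nlinarith
      · rw [det_smul_left, det_add_left, det_neg_right, det_neg_right, det_neg_left, hxx, hcx]
        nlinarith
      · intro h; exact hxi (by simpa using hIPs _ h)
      · rw [det_smul_left, det_add_left, det_neg_right, det_neg_right, hxx, hcx]; nlinarith
      · rw [det_smul_left, det_add_left, det_neg_right, det_neg_right, det_neg_left, hxx, hcx]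
        nlinarith
    · exact hsix K hK x c hfx hxi hcP hci hD hpl hfc
  push Not at hch
  obtain ⟨b, hb, hbi, hD, hb1, hb2⟩ := hch
  by_cases hq : ∃ m ∈ IP K, ((m, -1) : V3) ∉ K
  · obtain ⟨m, hm, hmK⟩ := hq
    obtain ⟨u, κ, hu⟩ := hul K hK x m hfx hxi hm hmK
    exact hC1 K hK x b hfx hxi hb hbi hD hb1 hb2 u κ hu
  by_cases hq' : ∃ m ∈ IP K, ((m, 1) : V3) ∉ K
  · obtain ⟨m, hm, hmK⟩ := hq'
    obtain ⟨hK', hPK, hLit⟩ := hrefl K hK
    have hIPK : IP (refl K) = IP K := by unfold IP; rw [hPK]
    have hfx' : Full (refl K) x := by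
      constructor
      · show ((x, -(1 : ℝ)) : V3) ∈ K
        exact hfx.2
      · show ((x, -(-1 : ℝ)) : V3) ∈ K
        rw [neg_neg]; exact hfx.1
    have hmK' : ((m, -1) : V3) ∉ refl K := by
      show ¬ ((m, -(-1 : ℝ)) : V3) ∈ K
      rw [neg_neg]; exact hmK
    obtain ⟨u, κ, hu⟩ := hul (refl K) hK' x m hfx' (by rw [hIPK]; exact hxi)
      (by rw [hIPK]; exact hm) hmK'
    exact hLit (hC1 (refl K) hK' x b hfx' (by rw [hIPK]; exact hxi) (by rw [hPK]; exact hb)
      (by rw [hIPK]; exact hbi) hD (by rw [hIPK]; exact hb1) (by rw [hIPK]; exact hb2) u κ hu)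
  -- the cylinder
  push Not at hq hq'
  have hfull : ∀ p ∈ P K, Full K p := by
    intro p hp
    have hlim : ∀ σ : ℝ, (∀ m ∈ IP K, ((m, σ) : V3) ∈ K) → ((p, σ) : V3) ∈ K := by
      intro σ hσ
      have hcl : IsClosed K := hK.cpt.isClosed
      have ht : Tendsto (fun s : ℝ => (((1 - s) • p, σ) : V3)) (𝓝[>] 0) (𝓝 ((p, σ) : V3)) := by
        have hc1 : Continuous (fun s : ℝ => (((1 - s) • p, σ) : V3)) := by fun_prop
        have := (hc1.tendsto 0).mono_left (nhdsWithin_le_nhds (s := Ioi (0 : ℝ)))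
        simpa using this
      refine hcl.mem_of_tendsto ht ?_
      have h1 : Ioc (0 : ℝ) 1 ∈ 𝓝[>] (0 : ℝ) := Ioc_mem_nhdsGT (by norm_num)
      filter_upwards [h1] with s hs1
      refine hσ _ ?_
      have := hseg 0 h0 p hp s hs1.1 hs1.2
      simpa using this
    exact ⟨hlim 1 hq', hlim (-1) hq⟩
  have hxb : det b x = - det x b := det_swap _ _
  have hxx := det_self x
  have hbb := det_self b
  have hv1 : x + b ≠ 0 := by
    intro h
    have : det x (x + b) = 0 := by rw [h]; simp [det]
    rw [det_add_right, hxx] at this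
    linarith
  have hv2 : b - x ≠ 0 := by
    intro h
    have : det x (b - x) = 0 := by rw [h]; simp [det]
    rw [det_sub_right, hxx] at this
    linarith
  obtain ⟨r, hr, hrP, hri⟩ := dirpt hP hK hv1
  obtain ⟨s, hs', hsP, hsi⟩ := dirpt hP hK hv2
  have e1 : 0 < det x (r • (x + b)) := by
    rw [det_smul_right, det_add_right, hxx]; nlinarith
  have e2 : 0 < det (r • (x + b)) b := by
    rw [det_smul_left, det_add_left, hbb]; nlinarith
  have e3 : 0 < det x (s • (b - x)) := by
    rw [det_smul_right, det_sub_right, hxx]; nlinarith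
  have e4 : 0 < det b (s • (b - x)) := by
    rw [det_smul_right, det_sub_right, hbb, hxb]; nlinarith
  exact h8 K hK x b hx hb hxi hbi hD hb1 hb2 ⟨_, hri, e1, e2, (hfull _ hrP).1⟩
    ⟨_, hri, e1, e2, (hfull _ hrP).2⟩ ⟨_, hsi, e3, e4, (hfull _ hsP).1⟩
    ⟨_, hsi, e3, e4, (hfull _ hsP).2⟩

end Pool.Agent.H332.HT
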